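import Pool.Agent.H979.GW.StmB

set_option autoImplicit false

open MeasureTheory ProbabilityTheory Filter Topology Set
open scoped ENNReal NNReal

/-!
# GW INT: the walk stays in the tree and makes steps between neighbours
-/

namespace Pool.Agent.H251.GWI

open Pool.Agent.H979.QIP (P cons)
open Pool.Agent.H979.GW

section gen

variable {X : Type} [Countable X] [MeasurableSpace X] [MeasurableSingletonClass X]
  (q : X → Measure X) [∀ x, IsProbabilityMeasure (q x)]

theorem meas2 (R : X → X → Prop) (s t : ℕ) : MeasurableSet {w : ℕ → X | R (w s) (w t)} := by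
  have h1 : Measurable (fun w : ℕ → X => (w s, w t)) :=
    (measurable_pi_apply s).prodMk (measurable_pi_apply t)
  have h2 : MeasurableSet {p : X × X | R p.1 p.2} := (Set.to_countable _).measurableSet
  exact h1 h2

theorem ae_first (x : X) (R : X → X → Prop) (s t : ℕ)
    (h : ∀ᵐ y ∂(q x), ∀ᵐ w ∂(P q y), R (cons x w s) (cons x w t)) :
    ∀ᵐ w ∂(P q x), R (w s) (w t) := by
  have hm := (meas2 (X := X) R s t).compl
  rw [ae_iff]
  have h1 : {w : ℕ → X | ¬ R (w s) (w t)} = {w : ℕ → X | R (w s) (w t)}ᶜ := rfl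
  rw [h1, Pool.Agent.H979.QIP.P_apply q x hm]
  rw [lintegral_eq_zero_iff (measurable_of_countable _)]
  filter_upwards [h] with y hy
  exact ae_iff.1 hy

/-- an invariant set `I` and a relation `R` which holds at each step from a point of `I` -/
theorem ae_step (I : X → Prop) (R : X → X → Prop)
    (h : ∀ x, I x → ∀ᵐ y ∂(q x), I y ∧ R x y) (s : ℕ) (x : X) (hx : I x) :
    ∀ᵐ w ∂(P q x), I (w s) ∧ R (w s) (w (s + 1)) := by
  induction s generalizing x with
  | zero =>
    refine ae_first q x (fun u v => I u ∧ R u v) 0 1 ?_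
    filter_upwards [h x hx] with y hy
    filter_upwards [Pool.Agent.H979.QIP.P_zero q y] with w hw
    refine ⟨hx, ?_⟩
    show R x (w 0)
    rw [hw]
    exact hy.2
  | succ s ih =>
    refine ae_first q x (fun u v => I u ∧ R u v) (s + 1) (s + 1 + 1) ?_
    filter_upwards [h x hx] with y hy
    exact ih y hy.1

end gen

theorem ae_sum_dirac {X : Type} [MeasurableSpace X] [DiscreteMeasurableSpace X] {ι : Type}
    (s : Finset ι) (c : ℝ≥0∞) (f : ι → X) (p : X → Prop) (h : ∀ i ∈ s, p (f i)) :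
    ∀ᵐ y ∂(∑ i ∈ s, c • Measure.dirac (f i) : Measure X), p y := by
  rw [ae_iff]
  simp only [Measure.coe_finsetSum, Measure.smul_apply, Finset.sum_apply, smul_eq_mul]
  refine Finset.sum_eq_zero fun i hi => ?_
  rw [Measure.dirac_apply]
  simp [h i hi]

variable {Λ : Type} [DecidableEq Λ]

instance : DiscreteMeasurableSpace (List Λ) := ⟨fun _ => trivial⟩

theorem ae_stp (ρ : ℝ) (ch : List Λ → Finset Λ) (h0 : (ch []).card ≠ 0) (x : List Λ)
    (hx : InT ch x) : ∀ᵐ y ∂(stp ρ ch x), InT ch y ∧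
      ((∃ b, b ∈ ch x ∧ y = b :: x) ∨ (∃ b, x = b :: y)) := by
  cases x with
  | nil =>
    unfold stp
    rw [if_neg h0]
    exact ae_sum_dirac _ _ _ _ fun c hc => ⟨⟨hx, hc⟩, Or.inl ⟨c, hc, rfl⟩⟩
  | cons a v =>
    unfold stp
    rw [ae_add_measure_iff]
    refine ⟨?_, ae_sum_dirac _ _ _ _ fun c hc => ⟨⟨hx, hc⟩, Or.inl ⟨c, hc, rfl⟩⟩⟩
    have h1 := ae_sum_dirac (Finset.univ : Finset Unit)
      (ENNReal.ofReal (ρ / (ρ + (ch (a :: v)).card))) (fun _ => v)
      (fun y => InT ch y ∧ ((∃ b, b ∈ ch (a :: v) ∧ y = b :: a :: v) ∨ (∃ b, a :: v = b :: y)))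
      (fun _ _ => ⟨hx.1, Or.inr ⟨a, rfl⟩⟩)
    simpa using h1

theorem gw_int : S_INT := by
  intro Λ _ _ ρ _ ch h0
  have h1 : ∀ s, ∀ᵐ w ∂(P (stp ρ ch) []), InT ch (w s) ∧
      ((∃ b, b ∈ ch (w s) ∧ w (s + 1) = b :: w s) ∨ (∃ b, w s = b :: w (s + 1))) := fun s =>
    ae_step (stp ρ ch) (InT ch)
      (fun x y => (∃ b, b ∈ ch x ∧ y = b :: x) ∨ (∃ b, x = b :: y))
      (fun x hx => ae_stp ρ ch h0 x hx) s [] trivial
  filter_upwards [Pool.Agent.H979.QIP.P_zero (stp ρ ch) [], ae_all_iff.2 h1] with w hw0 hw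
  exact ⟨hw0, hw⟩

end Pool.Agent.H251.GWI

namespace Pool.Agent.H251

theorem gw_int : Pool.Agent.H979.GW.S_INT := GWI.gw_int

end Pool.Agent.H251
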