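import Mathlib
import Pool.Agent.H812.Gi.Spec

/-!
# Sign lemma: `y` is monotone along the leaves

Part `GSy` of the project of helper812 on the dimension of the density of states.
-/

set_option autoImplicit false

open Real Filter Topology Set
open scoped ContDiff

namespace Pool.Agent.H251.GiGSy

open Pool.Agent.W811.Stu Pool.Agent.H812.Tm Pool.Agent.H812.Gi

lemma poly_pos {D Y Z : ℝ} (hD : 0 < D) (hY : 0 ≤ Y) (hY1 : Y < 1 + D) (hZ : 0 ≤ Z) (hZ1 : Z < 1) :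
    D ^ 2 * Y * Z < (1 + D) ^ 2 * (D + (1 - Y) * (1 - Z)) := by
  have e : (1 + D) ^ 2 * (D + (1 - Y) * (1 - Z)) - D ^ 2 * Y * Z =
      (1 + D - Y) * (1 - Z) * (1 + D) ^ 2 + (1 + D - Y) * Z * ((1 + D) * D) + Y * Z * D := by ring
  have h1 : 0 < (1 + D - Y) * (1 - Z) * (1 + D) ^ 2 := by
    have := mul_pos (sub_pos.2 hY1) (sub_pos.2 hZ1)
    positivity
  have h2 : 0 ≤ (1 + D - Y) * Z * ((1 + D) * D) := by
    have := mul_nonneg (sub_pos.2 hY1).le hZ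
    positivity
  have h3 : 0 ≤ Y * Z * D := by positivity
  linarith

lemma e_mul_gX {δ : ℝ} (hδ : δ ≠ 0) {p : P3} (hS : OnS δ p) (hz : p.z ^ 2 < 1)
    (hy : p.y ^ 2 < 1 + δ ^ 2) : 0 < ((1 + δ ^ 2) * p.x - p.y * p.z) * gX p := by
  have hδ2 : 0 < δ ^ 2 := by positivity
  have h1 := poly_pos hδ2 (sq_nonneg p.y) hy (sq_nonneg p.z) hz
  rw [← hS.X2] at h1
  set a := (1 + δ ^ 2) * gX p with ha
  set b := δ ^ 2 * p.y * p.z with hb
  have h2 : b ^ 2 < a ^ 2 := by rw [ha, hb]; nlinarith [h1]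
  have h3 : 0 < (a + b) * a := by nlinarith [sq_nonneg (a + b)]
  have e : (1 + δ ^ 2) * p.x - p.y * p.z = a + b := by rw [ha, hb]; unfold gX; ring
  rw [e]
  have h4 : (a + b) * a = (1 + δ ^ 2) * ((a + b) * gX p) := by rw [ha]; ring
  rw [h4] at h3
  exact (pos_iff_pos_of_mul_pos h3).1 (by positivity)

/-- the signs of the derivatives of a level function along `fV` and `fH` -/
lemma key_sign {δ : ℝ} (hδ : δ ≠ 0) {d : ℕ → ℕ} (hd : ∀ k, 1 ≤ d k) {m : ℕ} (hm : 2 ≤ m) {p : P3}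
    (hS : OnS δ p) (hz : p.z ^ 2 < 1) (hy : p.y ^ 2 < 1 + δ ^ 2)
    (hY : (orb d p m).y ^ 2 < 1 + δ ^ 2) :
    gX p * (Vy d m p * (dorb d p (fH p) m).y) ≤ 0 := by
  obtain ⟨m, rfl⟩ : ∃ k, m = k + 2 := ⟨m - 2, by omega⟩
  obtain ⟨w, h1, h2⟩ := yword d hd m
  rw [h1] at hY
  unfold Vy
  rw [h2, h2]
  obtain ⟨s1, s2, s3, hM⟩ := exists_mir hδ hS
  have hδ2 : 0 < δ ^ 2 := by positivity
  have hMR := hM.R
  have hSR := hS.R
  obtain ⟨s, hs, K⟩ := sgn_run hδ hSR hMR w hY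
  set β := b0 δ p s1 s2 s3 with hβ
  set α := aH δ p s1 s2 s3 with hα
  have nβ : ip β β = 1 + δ ^ 2 - p.z ^ 2 := b0_norm hδ hS hM
  have nα : ip α α = 1 + δ ^ 2 - p.y ^ 2 := aH_norm hδ hS hM
  have nβ0 : 0 < ip β β := by rw [nβ]; linarith
  have nα0 : 0 < ip α α := by rw [nα]; linarith
  have or1 : ∀ γ : L, 0 < ip γ γ → ∃ η : ℝ, (η = 1 ∨ η = -1) ∧ Cn (η • γ) := by
    intro γ hγ
    rcases Cn_or hγ.le with h | h
    · exact ⟨1, Or.inl rfl, by rwa [one_smul]⟩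
    · exact ⟨-1, Or.inr rfl, by rwa [neg_one_smul]⟩
  obtain ⟨η, hη, hηC⟩ := or1 β nβ0
  obtain ⟨τ, hτ, hτC⟩ := or1 α nα0
  have hη2 : η * η = 1 := by rcases hη with h | h <;> rw [h] <;> norm_num
  have hτ2 : τ * τ = 1 := by rcases hτ with h | h <;> rw [h] <;> norm_num
  have hs2 : s * s = 1 := by rcases hs with h | h <;> rw [h] <;> norm_num
  -- data
  have D1 : Dat δ p s1 s2 s3 (0 : L) (η • β) (lc (-η) (fV p) 0 (fV p)) := by
    have h := (b0_dat hδ hS hM).lc (b0_dat hδ hS hM) η 0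
    rw [zero_smul, add_zero, zero_smul, add_zero, smul_zero] at h
    convert h using 1
    unfold lc; ext <;> simp only <;> ring
  have D2 : Dat δ p s1 s2 s3 (τ • α) (0 : L) (lc τ (fH p) 0 (fH p)) := by
    have h := (aH_dat hδ hS hM).lc (aH_dat hδ hS hM) τ 0
    rw [zero_smul, add_zero, zero_smul, add_zero, smul_zero] at h
    exact h
  have E1 := D1.R hM
  have E2 := D2.R hM
  rw [zero_add] at E1
  rw [pr_zero, pr_zero, add_zero] at E2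
  have k1 := (K _ _ _ E1 (Cn_pr hM.n1 hηC) (Cn_pr hMR.n3 hηC)).1
  have k2 := (K _ _ _ E2 hτC Cn_zero).1
  have f1 : dR p (lc (-η) (fV p) 0 (fV p)) = lc (-η) (dR p (fV p)) 0 (dR p (fV p)) :=
    mdstep_lc Mv.R p _ _ _ _
  have f2 : dR p (lc τ (fH p) 0 (fH p)) = lc τ (dR p (fH p)) 0 (dR p (fH p)) :=
    mdstep_lc Mv.R p _ _ _ _
  rw [f1, drun_lc] at k1
  rw [f2, drun_lc] at k2
  simp only [lc] at k1 k2
  set V := (drun w (stepR p) (dR p (fV p))).x with hV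
  set H := (drun w (stepR p) (dR p (fH p))).x with hH
  have k3 := ip_nonneg hηC hτC
  rw [ip_smul_left, ip_smul_right, b0_aH hδ hS hM] at k3
  have k4 := e_mul_gX hδ hS hz hy
  set e := (1 + δ ^ 2) * p.x - p.y * p.z with he
  set g := gX p with hg
  have k5 : 0 ≤ η * τ * g := by
    have h5 : 0 ≤ (η * (τ * e)) * (e * g) := mul_nonneg k3 k4.le
    have h6 : (η * (τ * e)) * (e * g) = e ^ 2 * (η * τ * g) := by ring
    have h7 : 0 < e ^ 2 := by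
      have : e ≠ 0 := by intro h0; rw [h0] at k4; simp at k4
      positivity
    rw [h6] at h5
    exact nonneg_of_mul_nonneg_right h5 h7
  have k6 : 0 ≤ -(η * τ) * (V * H) := by
    have h8 := mul_nonneg k1 k2
    have h9 : s * (-η * V + 0 * V) * (s * (τ * H + 0 * H)) = (s * s) * (-(η * τ) * (V * H)) := by
      ring
    rw [h9, hs2, one_mul] at h8
    exact h8
  have k7 := mul_nonneg k5 k6
  have h10 : η * τ * g * (-(η * τ) * (V * H)) = (η * η) * (τ * τ) * (-(g * (V * H))) := by ring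
  rw [h10, hη2, hτ2, one_mul, one_mul] at k7
  linarith

/-! ### coordinates -/

lemma hd_z {f : ℝ × ℝ → ℝ} {v : ℝ × ℝ} (h : DifferentiableAt ℝ f v) :
    HasDerivAt (fun t => f (t, v.2)) (dz f v) v.1 := by
  have h1 : HasFDerivAt f (fderiv ℝ f v) ((fun t : ℝ => (t, v.2)) v.1) := h.hasFDerivAt
  have h2 : HasDerivAt (fun t : ℝ => (t, v.2)) ((1 : ℝ), (0 : ℝ)) v.1 :=
    (hasDerivAt_id v.1).prodMk (hasDerivAt_const v.1 v.2)
  exact h1.comp_hasDerivAt v.1 h2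

lemma ze_diff (hC : SCoord) (δ : ℝ) {v : ℝ × ℝ} (hv : v ∈ U) :
    DifferentiableAt ℝ (fun v => (ze δ v).y) v ∧ DifferentiableAt ℝ (fun v => (ze δ v).x) v := by
  have h1 : DifferentiableAt ℝ (fun v => toL (ze δ v)) v :=
    (((hC δ).2.2.1).contDiffAt (isOpen_U.mem_nhds hv)).differentiableAt (by simp)
  exact ⟨h1.snd.fst, h1.snd.snd⟩

lemma ze_hasDer (hC : SCoord) (δ : ℝ) (d : ℕ → ℕ) {v : ℝ × ℝ} (hv : v ∈ U) :
    HasDer (fun t => ze δ (t, v.2))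
      ⟨1, dz (Yf δ d 0) v, dz (fun v => (ze δ v).x) v⟩ v.1 := by
  obtain ⟨h1, h2⟩ := ze_diff hC δ hv
  exact ⟨hasDerivAt_id v.1, hd_z h1, hd_z h2⟩

lemma surf_der (hC : SCoord) (δ : ℝ) (d : ℕ → ℕ) {v : ℝ × ℝ} (hv : v ∈ U) :
    gX (ze δ v) * dz (fun v => (ze δ v).x) v + gB (ze δ v) * dz (Yf δ d 0) v
      = - gA (ze δ v) := by
  obtain ⟨hz, hy, hx⟩ := ze_hasDer hC δ d hv
  have h1 := ((hx.pow 2).add (hy.pow 2)).add (hz.pow 2)
  have h2 := h1.sub (((hx.const_mul 2).mul hy).mul hz)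
  have hU : U ∈ 𝓝 v := isOpen_U.mem_nhds hv
  have hc : Continuous fun t : ℝ => ((t, v.2) : ℝ × ℝ) := by fun_prop
  have hev : ∀ᶠ t in 𝓝 v.1, ((t, v.2) : ℝ × ℝ) ∈ U := by
    have : Tendsto (fun t : ℝ => ((t, v.2) : ℝ × ℝ)) (𝓝 v.1) (𝓝 v) := hc.tendsto v.1
    exact this hU
  have h3 : HasDerivAt (fun _ : ℝ => 1 + δ ^ 2) 0 v.1 := hasDerivAt_const _ _
  have h4 := h2.congr_of_eventuallyEq (f₁ := fun _ : ℝ => 1 + δ ^ 2) (by
    filter_upwards [hev] with t ht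
    have := (hC δ).1 _ ht
    unfold OnS at this
    simp only [Pi.add_apply, Pi.sub_apply, Pi.mul_apply, Pi.pow_apply]
    linarith)
  have h5 := h4.unique h3
  simp only [Prod.mk.eta] at h5
  unfold gX gB gA
  norm_num at h5
  linarith

lemma dz_Yf (hC : SCoord) (hD : SDt) (δ : ℝ) (d : ℕ → ℕ) (m : ℕ) {v : ℝ × ℝ} (hv : v ∈ U) :
    dz (Yf δ d m) v = (dorb d (ze δ v)
      ⟨1, dz (Yf δ d 0) v, dz (fun v => (ze δ v).x) v⟩ m).y := by
  have h1 := ((ze_hasDer hC δ d hv).orb d m).2.1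
  have h2 : DifferentiableAt ℝ (Yf δ d m) v :=
    (((hD δ d m).1).contDiffAt (isOpen_U.mem_nhds hv)).differentiableAt (by simp)
  exact (hd_z h2).unique h1

lemma fH_eq (hC : SCoord) (δ : ℝ) (d : ℕ → ℕ) {v : ℝ × ℝ} (hv : v ∈ U) :
    fH (ze δ v) = lc (gX (ze δ v)) ⟨1, dz (Yf δ d 0) v, dz (fun v => (ze δ v).x) v⟩
      (-dz (Yf δ d 0) v) (fV (ze δ v)) := by
  have h := surf_der hC δ d hv
  unfold fH fV lc
  ext
  · simp only; ring
  · simp only; ring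
  · simp only; linarith

lemma dH_eq (hC : SCoord) (hD : SDt) (δ : ℝ) (d : ℕ → ℕ) (m : ℕ) {v : ℝ × ℝ} (hv : v ∈ U) :
    (dorb d (ze δ v) (fH (ze δ v)) m).y =
      gX (ze δ v) * dz (Yf δ d m) v - dz (Yf δ d 0) v * Vy d m (ze δ v) := by
  rw [fH_eq hC δ d hv, dorb_lc, dz_Yf hC hD δ d m hv]
  simp only [lc, Vy]
  ring

lemma gX_ze {δ : ℝ} (v : ℝ × ℝ) :
    gX (ze δ v) = Bf δ v.1 * √(1 - v.1 ^ 2) * sin v.2 := by
  unfold gX ze; simp only; ring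

/-- the inequality at a finite level -/
lemma fin_sign (hC : SCoord) (hD : SDt) {δ : ℝ} (hδ : δ ≠ 0) {d : ℕ → ℕ} (hd : ∀ k, 1 ≤ d k)
    {m : ℕ} (hm : 2 ≤ m) {v : ℝ × ℝ} (hv : v ∈ U) (hy : |(ze δ v).y| < cc δ)
    (hY : |Yf δ d m v| ≤ 1) :
    0 ≤ sin v.2 * (dz (Yf δ d 0) v + sl (Yf δ d m) v * dt (Yf δ d 0) v) := by
  have hv' : |v.1| < 1 := hv
  have hS := (hC δ).1 v hv
  have hδ2 : 0 < δ ^ 2 := by positivity
  have hz : (ze δ v).z ^ 2 < 1 := by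
    have : (ze δ v).z = v.1 := rfl
    rw [this]; exact (sq_lt_one_iff_abs_lt_one _).2 hv'
  have hy' : (ze δ v).y ^ 2 < 1 + δ ^ 2 := by
    rw [← cc_sq δ, ← sq_abs]
    exact pow_lt_pow_left₀ hy (abs_nonneg _) two_ne_zero
  have hY' : (orb d (ze δ v) m).y ^ 2 < 1 + δ ^ 2 := by
    have h1 : (orb d (ze δ v) m).y ^ 2 ≤ 1 := (sq_le_one_iff_abs_le_one _).2 hY
    linarith
  have hk := key_sign hδ hd hm hS hz hy' hY'
  have hV : Vy d m (ze δ v) ≠ 0 :=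
    (cmpY hδ zero_le_one (by linarith) hd hm hS hz.le hY').2.2
  rw [dH_eq hC hD δ d m hv] at hk
  have hr : 0 < √(1 - v.1 ^ 2) := root_pos hv'
  have hB : 0 < Bf δ v.1 := Bf_pos hv'
  have ht0 : dt (Yf δ d 0) v = -gX (ze δ v) / √(1 - v.1 ^ 2) := (hD δ d 0).2.2 v hv
  have htm : dt (Yf δ d m) v = -Vy d m (ze δ v) / √(1 - v.1 ^ 2) := (hD δ d m).2.2 v hv
  have hsl : dz (Yf δ d 0) v + sl (Yf δ d m) v * dt (Yf δ d 0) v =
      -(gX (ze δ v) * dz (Yf δ d m) v - dz (Yf δ d 0) v * Vy d m (ze δ v)) /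
        Vy d m (ze δ v) := by
    unfold sl
    rw [htm, ht0]
    field_simp
    ring
  rw [hsl]
  set V := Vy d m (ze δ v)
  set H := gX (ze δ v) * dz (Yf δ d m) v - dz (Yf δ d 0) v * V
  have hg := gX_ze (δ := δ) v
  have hpos : 0 < Bf δ v.1 * √(1 - v.1 ^ 2) := mul_pos hB hr
  have hV2 : 0 < V ^ 2 := by positivity
  have e : (Bf δ v.1 * √(1 - v.1 ^ 2) * V ^ 2) * (sin v.2 * (-H / V)) =
      -(gX (ze δ v) * (V * H)) := by
    rw [hg]; field_simp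
  have h0 : 0 ≤ (Bf δ v.1 * √(1 - v.1 ^ 2) * V ^ 2) * (sin v.2 * (-H / V)) := by
    rw [e]; linarith
  exact nonneg_of_mul_nonneg_right h0 (mul_pos hpos hV2)

theorem tGSy (hField : SField) (hD : SDt) (hC : SCoord) : GSy := by
  intro δ κ θ d hx v hv hA hy
  have hδ := hx.hδ
  have hd := hx.hd
  have hv' : |v.1| < 1 := hv
  obtain ⟨-, -, h3⟩ := hField δ κ d θ hδ hx.hκ1 hx.hκ hd hx.hθ
  obtain ⟨C, hC0, h4⟩ := h3 |v.1| hv'
  by_contra hneg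
  push Not at hneg
  set A := dt (Yf δ d 0) v with hAd
  set Z := dz (Yf δ d 0) v with hZd
  set ε := -(sin v.2 * (Z + sg θ δ d v * A)) with hε
  have hε0 : 0 < ε := by rw [hε]; linarith
  obtain ⟨n, hn⟩ := pow_unbounded_of_one_lt (C * |A| / ε) (one_lt_two)
  have hn' : C * |A| < ε * 2 ^ n := by
    rw [div_lt_iff₀ hε0] at hn; linarith
  obtain ⟨M, hM1, hM2⟩ : ∃ M, 2 * n + 3 ≤ M ∧ |Yf δ d M v| ≤ 1 := by
    rcases hA (2 * n + 3) with h | h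
    · exact ⟨_, le_rfl, h⟩
    · exact ⟨_, Nat.le_succ _, h⟩
  have h5 := h4 v le_rfl M (by omega) hM2
  have h6 := fin_sign hC hD hδ hd (m := M) (by omega) hv hy hM2
  rw [← hAd, ← hZd] at h6
  have hp : (2 : ℝ) ^ n ≤ 2 ^ (M / 2) := pow_le_pow_right₀ one_le_two (by omega)
  have hp0 : (0 : ℝ) < 2 ^ (M / 2) := by positivity
  set q := |sg θ δ d v - sl (Yf δ d M) v| with hq
  have h7 : q * |A| < ε := by
    have e1 : q * |A| * 2 ^ (M / 2) < ε * 2 ^ (M / 2) := by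
      calc q * |A| * 2 ^ (M / 2) = q * 2 ^ (M / 2) * |A| := by ring
        _ ≤ C * |A| := mul_le_mul_of_nonneg_right h5 (abs_nonneg _)
        _ < ε * 2 ^ n := hn'
        _ ≤ ε * 2 ^ (M / 2) := mul_le_mul_of_nonneg_left hp hε0.le
    exact lt_of_mul_lt_mul_right e1 hp0.le
  have h8 : |sin v.2 * ((sg θ δ d v - sl (Yf δ d M) v) * A)| ≤ q * |A| := by
    rw [abs_mul, abs_mul, ← hq]
    have := abs_sin_le_one v.2
    have h9 : 0 ≤ q * |A| := mul_nonneg (abs_nonneg _) (abs_nonneg _)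
    nlinarith
  have h10 := abs_le.1 h8
  have e2 : sin v.2 * ((sg θ δ d v - sl (Yf δ d M) v) * A) =
      sin v.2 * (Z + sg θ δ d v * A) - sin v.2 * (Z + sl (Yf δ d M) v * A) := by ring
  rw [e2] at h10
  have : sin v.2 * (Z + sg θ δ d v * A) = -ε := by rw [hε]; ring
  rw [this] at h10
  linarith [h10.1]

end Pool.Agent.H251.GiGSy
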